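import Mathlib

/-!
# Averages over the intervals `(N - L N, N]` at a random `N` (MP_c59857_nt)
-/

set_option autoImplicit false

open Finset Filter Topology

namespace Pool.Agent.H78.FS

/-- lengths of intervals -/
structure Len (L : ℕ → ℝ) : Prop where
  pos : ∀ N : ℕ, 1 ≤ N → 0 < L N
  le : ∀ N : ℕ, 1 ≤ N → L N ≤ N
  mono : ∀ N M : ℕ, 1 ≤ N → N ≤ M → L N ≤ L M
  quot : ∀ N M : ℕ, 1 ≤ N → N ≤ M → L M * N ≤ L N * M
  lim : Tendsto L atTop atTop

/-- the integers in `(N - L N, N]` -/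
noncomputable def Iv (L : ℕ → ℝ) (N : ℕ) : Finset ℕ :=
  (Icc 1 N).filter (fun n : ℕ => (N : ℝ) - L N < n)

theorem mem_Iv {L : ℕ → ℝ} {N n : ℕ} : n ∈ Iv L N ↔ 1 ≤ n ∧ n ≤ N ∧ (N : ℝ) - L N < n := by
  unfold Iv
  rw [mem_filter, mem_Icc]
  tauto

theorem sq_sum {a : ℕ} (ha : 1 ≤ a) {M : ℕ} (hM : a ≤ M) :
    ∑ N ∈ Icc a M, 1 / (N : ℝ) ^ 2 ≤ 1 / (a : ℝ) ^ 2 + 1 / a - 1 / M := by
  induction M, hM using Nat.le_induction with
  | base => simp
  | succ M hM ih =>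
    rw [sum_Icc_succ_top (by omega)]
    have hM0 : (0 : ℝ) < M := by exact_mod_cast (lt_of_lt_of_le ha hM)
    have h1 : 1 / ((M + 1 : ℕ) : ℝ) ^ 2 ≤ 1 / (M : ℝ) - 1 / ((M + 1 : ℕ) : ℝ) := by
      push_cast
      rw [div_sub_div _ _ hM0.ne' (by positivity), div_le_div_iff₀ (by positivity) (by positivity)]
      nlinarith
    linarith

/-- the weight of `n` -/
theorem W_le {L : ℕ → ℝ} (h : Len L) {Y Z n : ℕ} (hY : 1 ≤ Y) (a : ℕ) (ha : a = max n Y) :
    ∑ N ∈ (Icc Y Z).filter (fun N => n ∈ Iv L N), 1 / (L N * N) ≤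
      1 / (a : ℝ) + 2 * (1 / (a * L a)) := by
  have ha1 : 1 ≤ a := by
    rw [ha]
    exact hY.trans (le_max_right _ _)
  have ha0 : (0 : ℝ) < a := by exact_mod_cast ha1
  have hLa : 0 < L a := h.pos a ha1
  rcases ((Icc Y Z).filter (fun N => n ∈ Iv L N)).eq_empty_or_nonempty with he | hne
  · rw [he, sum_empty]
    positivity
  · obtain ⟨M, hM, hmax⟩ := exists_max_image _ (fun N : ℕ => N) hne
    rw [mem_filter, mem_Icc, mem_Iv] at hM
    obtain ⟨⟨hM1, _⟩, _, hM2, hM3⟩ := hM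
    have haM : a ≤ M := by
      rw [ha]
      exact max_le hM2 hM1
    have hM0 : (0 : ℝ) < M := by exact_mod_cast ha1.trans haM
    have hLM : 0 < L M := h.pos M (ha1.trans haM)
    have hna : (n : ℝ) ≤ a := by
      rw [ha]
      exact_mod_cast le_max_left _ _
    have haM' : (a : ℝ) ≤ M := by exact_mod_cast haM
    have hLaM : L a ≤ L M := h.mono a M ha1 haM
    have hLa' : L a ≤ a := h.le a ha1
    calc ∑ N ∈ (Icc Y Z).filter (fun N => n ∈ Iv L N), 1 / (L N * N) ≤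
        ∑ N ∈ (Icc Y Z).filter (fun N => n ∈ Iv L N), M / L M * (1 / (N : ℝ) ^ 2) := by
          refine sum_le_sum fun N hN => ?_
          have hNM : N ≤ M := hmax N hN
          rw [mem_filter, mem_Icc, mem_Iv] at hN
          have hN1 : 1 ≤ N := hY.trans hN.1.1
          have hN0 : (0 : ℝ) < N := by exact_mod_cast hN1
          have hLN : 0 < L N := h.pos N hN1
          have hq := h.quot N M hN1 hNM
          rw [div_mul_div_comm, mul_one, div_le_div_iff₀ (by positivity) (by positivity)]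
          nlinarith
      _ ≤ ∑ N ∈ Icc a M, M / L M * (1 / (N : ℝ) ^ 2) := by
          refine sum_le_sum_of_subset_of_nonneg ?_ (fun _ _ _ => by positivity)
          intro N hN
          have hNM : N ≤ M := hmax N hN
          rw [mem_filter, mem_Icc, mem_Iv] at hN
          rw [mem_Icc, ha]
          exact ⟨max_le hN.2.2.1 hN.1.1, hNM⟩
      _ = M / L M * ∑ N ∈ Icc a M, 1 / (N : ℝ) ^ 2 := by rw [mul_sum]
      _ ≤ M / L M * (1 / (a : ℝ) ^ 2 + 1 / a - 1 / M) :=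
          mul_le_mul_of_nonneg_left (sq_sum ha1 haM) (by positivity)
      _ = M / (L M * a ^ 2) + (M - a) / (L M * a) := by
          field_simp
          ring
      _ ≤ (1 / (L M * a) + 1 / a ^ 2) + 1 / a := by
          refine add_le_add ?_ ?_
          · rw [show 1 / (L M * a) + 1 / (a : ℝ) ^ 2 = (a + L M) / (L M * a ^ 2) by field_simp]
            exact div_le_div_of_nonneg_right (by linarith) (by positivity)
          · rw [div_le_div_iff₀ (by positivity) (by positivity)]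
            nlinarith
      _ ≤ 1 / (a : ℝ) + 2 * (1 / (a * L a)) := by
          have h1 : 1 / (L M * a) ≤ 1 / (a * L a) := by
            refine one_div_le_one_div_of_le (by positivity) ?_
            nlinarith
          have h2 : 1 / (a : ℝ) ^ 2 ≤ 1 / (a * L a) := by
            refine one_div_le_one_div_of_le (by positivity) ?_
            nlinarith
          linarith

/-- the number of integers in `(N - L N, N]` -/
theorem card_Iv {L : ℕ → ℝ} (h : Len L) {N : ℕ} (hN : 1 ≤ N) : L N ≤ (Iv L N).card := by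
  have hLN := h.le N hN
  have h0 : 0 ≤ (N : ℝ) - L N := by linarith
  have hfl : ⌊(N : ℝ) - L N⌋₊ ≤ N := by
    have : ⌊(N : ℝ) - L N⌋₊ ≤ ⌊(N : ℝ)⌋₊ := Nat.floor_mono (by linarith [h.pos N hN])
    simpa using this
  have hsub : Ioc ⌊(N : ℝ) - L N⌋₊ N ⊆ Iv L N := by
    intro n hn
    rw [mem_Ioc] at hn
    rw [mem_Iv]
    exact ⟨by omega, hn.2, (Nat.floor_lt h0).1 hn.1⟩
  have h1 := card_le_card hsub
  rw [Nat.card_Ioc] at h1
  have h2 : ((N - ⌊(N : ℝ) - L N⌋₊ : ℕ) : ℝ) ≤ (Iv L N).card := by exact_mod_cast h1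
  rw [Nat.cast_sub hfl] at h2
  have h3 := Nat.floor_le h0
  linarith

theorem card_Iv_le {L : ℕ → ℝ} (h : Len L) {N : ℕ} (hN : 1 ≤ N) : ((Iv L N).card : ℝ) ≤ L N + 1 := by
  have hLN := h.le N hN
  have h0 : 0 ≤ (N : ℝ) - L N := by linarith
  have hfl : ⌊(N : ℝ) - L N⌋₊ ≤ N := by
    have : ⌊(N : ℝ) - L N⌋₊ ≤ ⌊(N : ℝ)⌋₊ := Nat.floor_mono (by linarith [h.pos N hN])
    simpa using this
  have hsub : Iv L N ⊆ Ioc ⌊(N : ℝ) - L N⌋₊ N := by
    intro n hn
    rw [mem_Iv] at hn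
    rw [mem_Ioc]
    exact ⟨(Nat.floor_lt h0).2 hn.2.2, hn.2.1⟩
  have h1 := card_le_card hsub
  rw [Nat.card_Ioc] at h1
  have h2 : ((Iv L N).card : ℝ) ≤ ((N - ⌊(N : ℝ) - L N⌋₊ : ℕ) : ℝ) := by exact_mod_cast h1
  rw [Nat.cast_sub hfl] at h2
  have h3 := Nat.lt_floor_add_one ((N : ℝ) - L N)
  linarith

/-- the sum of the averages -/
theorem sum_win {L : ℕ → ℝ} (h : Len L) (f : ℕ → ℝ) (C : ℝ) (hC : ∀ n, |f n| ≤ C) {Y : ℕ}
    (hY : 1 ≤ Y) {Z : ℕ} (hZ : Y ≤ Z) :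
    |∑ n ∈ Icc Y Z, f n / n - ∑ N ∈ Icc Y Z, (∑ n ∈ Iv L N, f n) / L N / N| ≤
      C * (4 * ∑ n ∈ Icc Y Z, 1 / (n * L n) + (2 + 4 / L 1)) := by
  have hC0 : 0 ≤ C := (abs_nonneg _).trans (hC 0)
  obtain ⟨W, hW⟩ : ∃ W : ℕ → ℝ, W = fun n =>
    ∑ N ∈ (Icc Y Z).filter (fun N => n ∈ Iv L N), 1 / (L N * N) := ⟨_, rfl⟩
  have hW0 : ∀ n, 0 ≤ W n := by
    intro n
    rw [hW]
    refine sum_nonneg fun N hN => ?_
    rw [mem_filter, mem_Icc] at hN
    have := h.pos N (hY.trans hN.1.1)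
    positivity
  have swap : ∀ g : ℕ → ℝ, ∑ N ∈ Icc Y Z, (∑ n ∈ Iv L N, g n) / L N / N =
      ∑ n ∈ Icc 1 Z, g n * W n := by
    intro g
    have e1 : ∀ N ∈ Icc Y Z, (∑ n ∈ Iv L N, g n) / L N / N =
        ∑ n ∈ Icc 1 Z, if n ∈ Iv L N then g n * (1 / (L N * N)) else 0 := by
      intro N hN
      rw [mem_Icc] at hN
      rw [← sum_filter]
      have e2 : (Icc 1 Z).filter (fun n => n ∈ Iv L N) = Iv L N := by
        ext n
        rw [mem_filter, mem_Icc]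
        constructor
        · exact fun h => h.2
        · intro hn
          have := mem_Iv.1 hn
          exact ⟨⟨this.1, this.2.1.trans hN.2⟩, hn⟩
      rw [e2, ← sum_mul, div_div, div_eq_mul_one_div]
    rw [sum_congr rfl e1, sum_comm]
    refine sum_congr rfl fun n _ => ?_
    rw [hW]
    simp only
    rw [mul_sum, sum_filter]
  obtain ⟨E, hE⟩ : ∃ E : ℝ, E = ∑ n ∈ Icc Y Z, 1 / ((n : ℝ) * L n) := ⟨_, rfl⟩
  have hL1 : 0 < L 1 := h.pos 1 le_rfl
  -- the mass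
  have hmass : ∑ N ∈ Icc Y Z, 1 / (N : ℝ) ≤ ∑ n ∈ Icc 1 Z, W n := by
    have h1 := swap (fun _ => 1)
    simp only [one_mul] at h1
    rw [← h1]
    refine sum_le_sum fun N hN => ?_
    rw [mem_Icc] at hN
    have hN1 := hY.trans hN.1
    have hN0 : (0 : ℝ) < N := by exact_mod_cast hN1
    have hLN := h.pos N hN1
    refine div_le_div_of_nonneg_right ?_ hN0.le
    rw [one_le_div hLN, sum_const, nsmul_eq_mul, mul_one]
    exact card_Iv h hN1
  have hsplit : ∀ g : ℕ → ℝ, ∑ n ∈ Icc 1 Z, g n = ∑ n ∈ Ico 1 Y, g n + ∑ n ∈ Icc Y Z, g n := by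
    intro g
    rw [← sum_union]
    · congr 1
      ext n
      simp only [mem_union, mem_Icc, mem_Ico]
      omega
    · rw [disjoint_left]
      intro n h1 h2
      rw [mem_Ico] at h1
      rw [mem_Icc] at h2
      omega
  have hY0 : (1 : ℝ) ≤ Y := by exact_mod_cast hY
  have hlow : ∑ n ∈ Ico 1 Y, W n ≤ 1 + 2 / L 1 := by
    have h1 : ∀ n ∈ Ico 1 Y, W n ≤ 1 / (Y : ℝ) + 2 * (1 / (Y * L 1)) := by
      intro n hn
      rw [mem_Ico] at hn
      have h2 := W_le h (Z := Z) (n := n) hY Y (by rw [max_eq_right hn.2.le])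
      rw [hW]
      refine h2.trans ?_
      have h3 : L 1 ≤ L Y := h.mono 1 Y le_rfl hY
      have h4 : 1 / ((Y : ℝ) * L Y) ≤ 1 / (Y * L 1) :=
        one_div_le_one_div_of_le (by positivity) (by nlinarith)
      linarith
    refine (sum_le_sum h1).trans ?_
    rw [sum_const, Nat.card_Ico, nsmul_eq_mul]
    have h2 : ((Y - 1 : ℕ) : ℝ) ≤ Y := by exact_mod_cast Nat.sub_le Y 1
    calc ((Y - 1 : ℕ) : ℝ) * (1 / (Y : ℝ) + 2 * (1 / (Y * L 1))) ≤
        (Y : ℝ) * (1 / (Y : ℝ) + 2 * (1 / (Y * L 1))) :=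
          mul_le_mul_of_nonneg_right h2 (by positivity)
      _ = 1 + 2 / L 1 := by
          field_simp
  have hup : ∀ n ∈ Icc Y Z, W n ≤ 1 / (n : ℝ) + 2 * (1 / (n * L n)) := by
    intro n hn
    rw [mem_Icc] at hn
    have h2 := W_le h (Z := Z) (n := n) hY n (by rw [max_eq_left hn.1])
    rw [hW]
    exact h2
  have hhigh : ∑ n ∈ Icc Y Z, |1 / (n : ℝ) - W n| ≤ 4 * E + (1 + 2 / L 1) := by
    have h1 : ∀ n ∈ Icc Y Z, |1 / (n : ℝ) - W n| ≤
        (1 / (n : ℝ) - W n) + 4 * (1 / (n * L n)) := by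
      intro n hn
      have h2 := hup n hn
      rw [mem_Icc] at hn
      have hn0 : (0 : ℝ) < n := by exact_mod_cast hY.trans hn.1
      have hLn := h.pos n (hY.trans hn.1)
      have h3 : 0 ≤ 1 / ((n : ℝ) * L n) := by positivity
      rw [abs_le]
      constructor <;> linarith
    refine (sum_le_sum h1).trans ?_
    rw [sum_add_distrib, sum_sub_distrib, ← mul_sum, ← hE]
    rw [hsplit W] at hmass
    linarith
  rw [swap f, hsplit (fun n => f n * W n)]
  have e1 : ∑ n ∈ Icc Y Z, f n / n - (∑ n ∈ Ico 1 Y, f n * W n + ∑ n ∈ Icc Y Z, f n * W n) =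
      ∑ n ∈ Icc Y Z, f n * (1 / (n : ℝ) - W n) - ∑ n ∈ Ico 1 Y, f n * W n := by
    have e2 : ∑ n ∈ Icc Y Z, f n * (1 / (n : ℝ) - W n) =
        ∑ n ∈ Icc Y Z, f n / n - ∑ n ∈ Icc Y Z, f n * W n := by
      rw [← sum_sub_distrib]
      refine sum_congr rfl fun n _ => ?_
      ring
    rw [e2]
    ring
  rw [e1]
  refine (abs_sub _ _).trans ?_
  have h1 : |∑ n ∈ Icc Y Z, f n * (1 / (n : ℝ) - W n)| ≤ C * (4 * E + (1 + 2 / L 1)) := by
    refine (abs_sum_le_sum_abs _ _).trans ?_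
    refine (sum_le_sum (g := fun n : ℕ => C * |1 / (n : ℝ) - W n|) fun n _ => ?_).trans ?_
    · rw [abs_mul]
      exact mul_le_mul_of_nonneg_right (hC n) (abs_nonneg _)
    · rw [← mul_sum]
      exact mul_le_mul_of_nonneg_left hhigh hC0
  have h2 : |∑ n ∈ Ico 1 Y, f n * W n| ≤ C * (1 + 2 / L 1) := by
    refine (abs_sum_le_sum_abs _ _).trans ?_
    refine (sum_le_sum (g := fun n : ℕ => C * W n) fun n _ => ?_).trans ?_
    · rw [abs_mul, abs_of_nonneg (hW0 n)]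
      exact mul_le_mul_of_nonneg_right (hC n) (hW0 n)
    · rw [← mul_sum]
      exact mul_le_mul_of_nonneg_left hlow hC0
  rw [← hE]
  calc |∑ n ∈ Icc Y Z, f n * (1 / (n : ℝ) - W n)| + |∑ n ∈ Ico 1 Y, f n * W n| ≤
      C * (4 * E + (1 + 2 / L 1)) + C * (1 + 2 / L 1) := add_le_add h1 h2
    _ = C * (4 * E + (2 + 4 / L 1)) := by ring

end Pool.Agent.H78.FS
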