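import Pool.Agent.H56.FS.Scale
import Pool.Agent.H78.FS.Sum

/-!
# The law of the empirical measures on the intervals `(N - L N, N]` (MP_c59857_nt)
-/

set_option autoImplicit false

open MeasureTheory ProbabilityTheory Filter Topology

namespace Pool.Agent.H78.FS

open Pool.Agent.H89.MT (I1 X pt z1)
open Pool.Agent.H36.RP (S)
open Pool.Agent.H83.W (S_cont pt_succ)
open Pool.Agent.H56.FS (cont_int int_comp int_comp_int)

variable {Ω : Type*} [mΩ : MeasurableSpace Ω]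

/-- The law of the empirical measure of the orbit of `u` on the intervals `(N - L N, N]` at the
random scale `N`, along windows. -/
def RSL (L : ℕ → ℝ) (u : ℕ → I1) (P : Measure Ω) (K : Kernel Ω X) : Prop :=
  ∃ Y Z : ℕ → ℕ, (∀ k, 1 ≤ Y k ∧ Y k ≤ Z k ∧
    Real.log (Z k) ^ (24 / 25 : ℝ) ≤ Real.log ((Z k : ℝ) / Y k)) ∧
    Tendsto (fun k => Real.log ((Z k : ℝ) / Y k)) atTop atTop ∧
    ∀ (r : ℕ) (F : Fin r → C(X, ℝ)),
      Tendsto (fun k => (∑ N ∈ Finset.Icc (Y k) (Z k),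
        (∏ i, (∑ n ∈ Iv L N, F i (pt u n)) / L N) / N) / Real.log ((Z k : ℝ) / Y k))
        atTop (𝓝 (∫ ω, ∏ i, ∫ x, F i x ∂K ω ∂P))

/-- the harmonic sum over a window -/
theorem harm {Y : ℕ} (hY : 1 ≤ Y) {Z : ℕ} (hZ : Y ≤ Z) :
    ∑ n ∈ Finset.Icc Y Z, 1 / (n : ℝ) ≤ 1 + Real.log ((Z : ℝ) / Y) := by
  induction Z, hZ using Nat.le_induction with
  | base =>
    have h0 : (1 : ℝ) ≤ Y := by exact_mod_cast hY
    rw [Finset.Icc_self, Finset.sum_singleton, div_self (by linarith), Real.log_one, add_zero]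
    exact div_le_one_of_le₀ h0 (by linarith)
  | succ Z hZ ih =>
    rw [Finset.sum_Icc_succ_top (by omega)]
    have hZ0 : (0 : ℝ) < Z := by exact_mod_cast (lt_of_lt_of_le hY hZ)
    have hY0 : (0 : ℝ) < Y := by exact_mod_cast hY
    have h1 : 1 / ((Z + 1 : ℕ) : ℝ) ≤ Real.log (((Z + 1 : ℕ) : ℝ) / Z) := by
      have h2 := Real.one_sub_inv_le_log_of_pos (x := ((Z + 1 : ℕ) : ℝ) / Z) (by positivity)
      refine le_trans (le_of_eq ?_) h2
      push_cast
      field_simp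
      ring
    have h3 : Real.log (((Z + 1 : ℕ) : ℝ) / Y) =
        Real.log ((Z : ℝ) / Y) + Real.log (((Z + 1 : ℕ) : ℝ) / Z) := by
      rw [← Real.log_mul (by positivity) (by positivity)]
      congr 1
      field_simp
    rw [h3]
    linarith

/-- for `g ≥ 0`, `g → 0`, the logarithmic means over windows tend to `0` -/
theorem mean_small {g : ℕ → ℝ} (hg : Tendsto g atTop (𝓝 0)) (hg0 : ∀ n, 0 ≤ g n) {Y Z : ℕ → ℕ}
    (hY : ∀ k, 1 ≤ Y k ∧ Y k ≤ Z k)
    (hL : Tendsto (fun k => Real.log ((Z k : ℝ) / Y k)) atTop atTop) :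
    Tendsto (fun k => (∑ n ∈ Finset.Icc (Y k) (Z k), g n / n) / Real.log ((Z k : ℝ) / Y k))
      atTop (𝓝 0) := by
  rw [Metric.tendsto_atTop]
  intro ε hε
  obtain ⟨n0, hn0⟩ := (Metric.tendsto_atTop.1 hg) (ε / 4) (by linarith)
  obtain ⟨A, hA⟩ : ∃ A : ℝ, A = ∑ n ∈ Finset.range n0, g n := ⟨_, rfl⟩
  have hA0 : 0 ≤ A := by
    rw [hA]
    exact Finset.sum_nonneg fun n _ => hg0 n
  have h1 : ∀ᶠ k in atTop, max 1 (4 * A / ε) < Real.log ((Z k : ℝ) / Y k) :=
    hL.eventually_gt_atTop _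
  obtain ⟨k0, hk0⟩ := eventually_atTop.1 h1
  refine ⟨k0, fun k hk => ?_⟩
  have h2 := hk0 k hk
  have hl1 : 1 < Real.log ((Z k : ℝ) / Y k) := lt_of_le_of_lt (le_max_left _ _) h2
  have hl2 : 4 * A / ε < Real.log ((Z k : ℝ) / Y k) := lt_of_le_of_lt (le_max_right _ _) h2
  have hl0 : 0 < Real.log ((Z k : ℝ) / Y k) := by linarith
  have hs0 : 0 ≤ ∑ n ∈ Finset.Icc (Y k) (Z k), g n / n :=
    Finset.sum_nonneg fun n _ => div_nonneg (hg0 n) (by positivity)
  have hs : ∑ n ∈ Finset.Icc (Y k) (Z k), g n / n ≤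
      A + ε / 4 * (1 + Real.log ((Z k : ℝ) / Y k)) := by
    rw [← Finset.sum_filter_add_sum_filter_not (Finset.Icc (Y k) (Z k)) (fun n => n < n0)]
    refine add_le_add ?_ ?_
    · rw [hA]
      refine le_trans (Finset.sum_le_sum (g := g) fun n hn => ?_) ?_
      · rw [Finset.mem_filter, Finset.mem_Icc] at hn
        have : (1 : ℝ) ≤ n := by exact_mod_cast (hY k).1.trans hn.1.1
        exact div_le_self (hg0 n) this
      · refine Finset.sum_le_sum_of_subset_of_nonneg ?_ (fun n _ _ => hg0 n)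
        intro n hn
        rw [Finset.mem_filter] at hn
        exact Finset.mem_range.2 hn.2
    · refine le_trans (Finset.sum_le_sum (g := fun n : ℕ => ε / 4 * (1 / (n : ℝ)))
        fun n hn => ?_) ?_
      · rw [Finset.mem_filter, Finset.mem_Icc] at hn
        have h3 := hn0 n (not_lt.1 hn.2)
        rw [Real.dist_eq, sub_zero, abs_of_nonneg (hg0 n)] at h3
        have h4 : (0 : ℝ) < n := by exact_mod_cast (lt_of_lt_of_le (hY k).1 hn.1.1)
        rw [mul_one_div]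
        exact div_le_div_of_nonneg_right h3.le h4.le
      · rw [← Finset.mul_sum]
        refine mul_le_mul_of_nonneg_left ?_ (by linarith)
        refine le_trans (Finset.sum_le_sum_of_subset_of_nonneg (Finset.filter_subset _ _)
          (fun n _ _ => by positivity)) (harm (hY k).1 (hY k).2)
  rw [Real.dist_eq, sub_zero, abs_of_nonneg (div_nonneg hs0 hl0.le), div_lt_iff₀ hl0]
  have h5 : 4 * A < Real.log ((Z k : ℝ) / Y k) * ε := (div_lt_iff₀ hε).1 hl2
  nlinarith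

theorem inv_lim {L : ℕ → ℝ} (hL : Len L) : Tendsto (fun n => 1 / L n) atTop (𝓝 0) := by
  simpa using (tendsto_const_nhds (x := (1 : ℝ))).div_atTop hL.lim

/-- the mean measure is a logarithmic limit -/
theorem K_mean {L : ℕ → ℝ} (hLen : Len L) {u : ℕ → I1} {P : Measure Ω} [IsProbabilityMeasure P]
    {K : Kernel Ω X} [IsMarkovKernel K] (h : RSL L u P K) :
    ∃ Y Z : ℕ → ℕ, (∀ k, 1 ≤ Y k ∧ Y k ≤ Z k ∧
      Real.log (Z k) ^ (24 / 25 : ℝ) ≤ Real.log ((Z k : ℝ) / Y k)) ∧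
      Tendsto (fun k => Real.log ((Z k : ℝ) / Y k)) atTop atTop ∧
      ∀ F : C(X, ℝ), Tendsto (fun k => (∑ n ∈ Finset.Icc (Y k) (Z k), F (pt u n) / n) /
        Real.log ((Z k : ℝ) / Y k)) atTop (𝓝 (∫ x, F x ∂(K ∘ₘ P))) := by
  obtain ⟨Y, Z, hYZ, hL, hF⟩ := h
  refine ⟨Y, Z, hYZ, hL, fun F => ?_⟩
  have h1 := hF 1 (fun _ => F)
  simp only [Fin.prod_univ_one] at h1
  rw [← int_comp P K (cont_int _ F)] at h1
  have hb : ∀ n, |F (pt u n)| ≤ ‖F‖ := fun n => by
    have := F.norm_coe_le_norm (pt u n)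
    rwa [Real.norm_eq_abs] at this
  have h3 : Tendsto (fun k => (∑ n ∈ Finset.Icc (Y k) (Z k), F (pt u n) / n) /
      Real.log ((Z k : ℝ) / Y k) - (∑ N ∈ Finset.Icc (Y k) (Z k),
        (∑ n ∈ Iv L N, F (pt u n)) / L N / N) /
      Real.log ((Z k : ℝ) / Y k)) atTop (𝓝 0) := by
    have g0 : ∀ n, 0 ≤ (if 1 ≤ n then 1 / L n else 0) := by
      intro n
      split_ifs with hn
      · exact one_div_nonneg.2 (hLen.pos n hn).le
      · exact le_rfl
    have g1 : Tendsto (fun n : ℕ => if 1 ≤ n then 1 / L n else (0 : ℝ)) atTop (𝓝 0) := by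
      refine (inv_lim hLen).congr' ?_
      filter_upwards [eventually_ge_atTop 1] with n hn
      rw [if_pos hn]
    have hlim1 := mean_small g1 g0 (fun k => ⟨(hYZ k).1, (hYZ k).2.1⟩) hL
    have hlim2 : Tendsto (fun k => (2 + 4 / L 1) / Real.log ((Z k : ℝ) / Y k)) atTop (𝓝 0) :=
      hL.const_div_atTop _
    have hlim : Tendsto (fun k => ‖F‖ * (4 * ((∑ n ∈ Finset.Icc (Y k) (Z k),
        (if 1 ≤ n then 1 / L n else (0 : ℝ)) / n) / Real.log ((Z k : ℝ) / Y k)) +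
        (2 + 4 / L 1) / Real.log ((Z k : ℝ) / Y k))) atTop (𝓝 0) := by
      have := ((hlim1.const_mul 4).add hlim2).const_mul ‖F‖
      simpa using this
    refine squeeze_zero_norm' ?_ hlim
    filter_upwards [hL.eventually_gt_atTop 0] with k hk
    obtain ⟨hY, hYX, _⟩ := hYZ k
    rw [← sub_div, Real.norm_eq_abs, abs_div, abs_of_pos hk]
    refine (div_le_div_of_nonneg_right
      (sum_win hLen (fun n => F (pt u n)) ‖F‖ hb hY hYX) hk.le).trans (le_of_eq ?_)
    have e1 : ∑ n ∈ Finset.Icc (Y k) (Z k), (if 1 ≤ n then 1 / L n else (0 : ℝ)) / n =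
        ∑ n ∈ Finset.Icc (Y k) (Z k), 1 / ((n : ℝ) * L n) := by
      refine Finset.sum_congr rfl fun n hn => ?_
      rw [Finset.mem_Icc] at hn
      rw [if_pos (hY.trans hn.1), div_div, mul_comm]
    rw [e1]
    field_simp
  have h4 := h3.add h1
  simp only [sub_add_cancel, zero_add] at h4
  exact h4

theorem Iv_eq {L : ℕ → ℝ} (h : Len L) {N : ℕ} (hN : 1 ≤ N) :
    ∃ a : ℕ, a ≤ N ∧ Iv L N = Finset.Ioc a N := by
  have hLN := h.le N hN
  have h0 : 0 ≤ (N : ℝ) - L N := by linarith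
  have hfl : ⌊(N : ℝ) - L N⌋₊ ≤ N := by
    have : ⌊(N : ℝ) - L N⌋₊ ≤ ⌊(N : ℝ)⌋₊ := Nat.floor_mono (by linarith [h.pos N hN])
    simpa using this
  refine ⟨⌊(N : ℝ) - L N⌋₊, hfl, ?_⟩
  ext n
  rw [mem_Iv, Finset.mem_Ioc]
  constructor
  · rintro ⟨_, h2, h3⟩
    exact ⟨(Nat.floor_lt h0).2 h3, h2⟩
  · rintro ⟨h1, h2⟩
    exact ⟨by omega, h2, (Nat.floor_lt h0).1 h1⟩

/-- one continuous function -/
theorem K_inv_one {L : ℕ → ℝ} (hLen : Len L) {u : ℕ → I1} {P : Measure Ω}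
    [IsProbabilityMeasure P] {K : Kernel Ω X} [IsMarkovKernel K] (h : RSL L u P K)
    (F : C(X, ℝ)) : ∀ᵐ ω ∂P, ∫ x, F (S x) ∂K ω = ∫ x, F x ∂K ω := by
  obtain ⟨Y, Z, hYZ, hL, hF⟩ := h
  have hSc : Continuous S := S_cont
  obtain ⟨G, hG⟩ : ∃ G : C(X, ℝ), ∀ x, G x = F (S x) - F x :=
    ⟨⟨fun x => F (S x) - F x, (F.continuous.comp hSc).sub F.continuous⟩, fun x => rfl⟩
  have h1 := hF 2 (fun _ => G)
  simp only [Fin.prod_univ_two] at h1
  have hb : ∀ n, |F (pt u n)| ≤ ‖F‖ := fun n => by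
    have := F.norm_coe_le_norm (pt u n)
    rwa [Real.norm_eq_abs] at this
  have hsum : ∀ a N : ℕ, a ≤ N →
      ∑ n ∈ Finset.Ioc a N, G (pt u n) = F (pt u (N + 1)) - F (pt u (a + 1)) := by
    intro a N haN
    induction N, haN using Nat.le_induction with
    | base => simp
    | succ N hN ih =>
      rw [Finset.sum_Ioc_succ_top hN, ih, hG]
      have h2 : S (pt u (N + 1)) = pt u (N + 1 + 1) := (pt_succ u (N + 1)).symm
      rw [h2]
      ring
  have hsb : ∀ N : ℕ, 1 ≤ N → |∑ n ∈ Iv L N, G (pt u n)| ≤ 2 * ‖F‖ := by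
    intro N hN
    obtain ⟨a, ha, he⟩ := Iv_eq hLen hN
    rw [he, hsum a N ha]
    refine (abs_sub _ _).trans ?_
    linarith [hb (N + 1), hb (a + 1)]
  have h3 : Tendsto (fun k => (∑ N ∈ Finset.Icc (Y k) (Z k),
      ((∑ n ∈ Iv L N, G (pt u n)) / L N * ((∑ n ∈ Iv L N, G (pt u n)) / L N)) / N) /
      Real.log ((Z k : ℝ) / Y k)) atTop (𝓝 0) := by
    have g1 : Tendsto (fun n : ℕ => (2 * ‖F‖) ^ 2 * (1 / L n * (1 / L n))) atTop (𝓝 0) := by
      have := ((inv_lim hLen).mul (inv_lim hLen)).const_mul ((2 * ‖F‖) ^ 2)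
      simpa using this
    have hlim := mean_small g1
      (fun n => mul_nonneg (sq_nonneg _) (mul_self_nonneg _)) (fun k => ⟨(hYZ k).1, (hYZ k).2.1⟩) hL
    refine squeeze_zero_norm' ?_ hlim
    filter_upwards [hL.eventually_gt_atTop 0] with k hk
    obtain ⟨hY, hYX, _⟩ := hYZ k
    rw [Real.norm_eq_abs, abs_div, abs_of_pos hk]
    refine div_le_div_of_nonneg_right ?_ hk.le
    refine (Finset.abs_sum_le_sum_abs _ _).trans (Finset.sum_le_sum fun N hN => ?_)
    rw [Finset.mem_Icc] at hN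
    have hN1 := hY.trans hN.1
    have hN0 : (0 : ℝ) < N := by exact_mod_cast hN1
    have hLN := hLen.pos N hN1
    have h5 := hsb N hN1
    have h6 : (∑ n ∈ Iv L N, G (pt u n)) ^ 2 ≤ (2 * ‖F‖) ^ 2 := by
      rw [← sq_abs]
      exact pow_le_pow_left₀ (abs_nonneg _) h5 2
    have h7 : (∑ n ∈ Iv L N, G (pt u n)) / L N * ((∑ n ∈ Iv L N, G (pt u n)) / L N) / N =
        (∑ n ∈ Iv L N, G (pt u n)) ^ 2 * (1 / L N * (1 / L N)) / N := by
      field_simp
    rw [h7, abs_of_nonneg (by positivity)]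
    exact div_le_div_of_nonneg_right (mul_le_mul_of_nonneg_right h6 (by positivity)) hN0.le
  have h4 : ∫ ω, (∫ x, G x ∂K ω) * (∫ x, G x ∂K ω) ∂P = 0 := tendsto_nhds_unique h1 h3
  have hm : AEStronglyMeasurable (fun ω => ∫ x, G x ∂(K ω)) P :=
    (int_comp_int P K (cont_int _ G)).1
  have hGb : ∀ ω, |∫ x, G x ∂(K ω)| ≤ ‖G‖ := by
    intro ω
    have h2 := norm_integral_le_of_norm_le_const (μ := K ω) (f := G) (C := ‖G‖)
      (Eventually.of_forall fun x => G.norm_coe_le_norm x)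
    simpa using h2
  have hi : Integrable (fun ω => (∫ x, G x ∂(K ω)) * ∫ x, G x ∂(K ω)) P :=
    Integrable.of_bound (hm.mul hm) (‖G‖ * ‖G‖) (Eventually.of_forall fun ω => by
      rw [Real.norm_eq_abs, abs_mul]
      exact mul_le_mul (hGb ω) (hGb ω) (abs_nonneg _) (norm_nonneg _))
  rw [integral_eq_zero_iff_of_nonneg (fun ω => mul_self_nonneg _) hi] at h4
  filter_upwards [h4] with ω hω
  have h5 : ∫ x, G x ∂(K ω) = 0 := mul_self_eq_zero.1 hω
  have h6 : ∫ x, G x ∂(K ω) = ∫ x, F (S x) ∂K ω - ∫ x, F x ∂K ω := by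
    simp only [hG]
    exact integral_sub (cont_int (K ω) ⟨fun x => F (S x), F.continuous.comp hSc⟩)
      (cont_int (K ω) F)
  rw [h6] at h5
  linarith

/-- almost every measure is invariant -/
theorem K_inv {L : ℕ → ℝ} (hLen : Len L) {u : ℕ → I1} {P : Measure Ω} [IsProbabilityMeasure P]
    {K : Kernel Ω X} [IsMarkovKernel K] (h : RSL L u P K) :
    ∀ᵐ ω ∂P, MeasurePreserving S (K ω) (K ω) := by
  have hSc : Continuous S := S_cont
  have hS : Measurable S := hSc.measurable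
  obtain ⟨D, hDc, hD⟩ := TopologicalSpace.exists_countable_dense C(X, ℝ)
  have h1 : ∀ᵐ ω ∂P, ∀ F ∈ D, ∫ x, F (S x) ∂K ω = ∫ x, F x ∂K ω := by
    rw [ae_ball_iff hDc]
    exact fun F _ => K_inv_one hLen h F
  filter_upwards [h1] with ω hω
  refine ⟨hS, ?_⟩
  have : IsProbabilityMeasure ((K ω).map S) :=
    Measure.isProbabilityMeasure_map hS.aemeasurable
  have hall : ∀ F : C(X, ℝ), ∫ x, F (S x) ∂K ω = ∫ x, F x ∂K ω := by
    intro F
    refine eq_of_forall_dist_le fun ε hε => ?_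
    obtain ⟨G, hGD, hG⟩ := hD.exists_dist_lt F (half_pos hε)
    have hb : ∀ x, |F x - G x| ≤ ε / 2 := by
      intro x
      have h3 := ContinuousMap.dist_apply_le_dist (f := F) (g := G) x
      rw [Real.dist_eq] at h3
      exact h3.trans hG.le
    have h2 : |∫ x, F (S x) ∂K ω - ∫ x, G (S x) ∂K ω| ≤ ε / 2 := by
      have e1 : Integrable (fun x => F (S x)) (K ω) :=
        cont_int (K ω) ⟨fun x => F (S x), F.continuous.comp hSc⟩
      have e2 : Integrable (fun x => G (S x)) (K ω) :=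
        cont_int (K ω) ⟨fun x => G (S x), G.continuous.comp hSc⟩
      rw [← integral_sub e1 e2]
      have h4 := norm_integral_le_of_norm_le_const (μ := K ω)
        (f := fun x => F (S x) - G (S x)) (C := ε / 2) (Eventually.of_forall fun x => hb (S x))
      simpa using h4
    have h3 : |∫ x, F x ∂K ω - ∫ x, G x ∂K ω| ≤ ε / 2 := by
      rw [← integral_sub (cont_int (K ω) F) (cont_int (K ω) G)]
      have h4 := norm_integral_le_of_norm_le_const (μ := K ω)
        (f := fun x => F x - G x) (C := ε / 2) (Eventually.of_forall fun x => hb x)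
      simpa using h4
    have h4 := hω G hGD
    rw [Real.dist_eq]
    rw [h4] at h2
    rw [abs_le] at h2 h3 ⊢
    constructor <;> linarith [h2.1, h2.2, h3.1, h3.2]
  apply ext_of_forall_integral_eq_of_IsFiniteMeasure
  intro F
  rw [integral_map hS.aemeasurable F.continuous.aestronglyMeasurable]
  exact hall ⟨F, F.continuous⟩

end Pool.Agent.H78.FS
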